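import Pool.Agent.P.MP_d483fb_an.M.A40
import Pool.Agent.P.MP_d483fb_an.M.A43

/-!
Zimmer's conjecture: below the dimensions `d(G)` and `v(G)` every smooth action of a lattice in a
connected semisimple Lie group, all of whose simple factors have real rank at least two, on a
closed manifold factors through a finite group.
-/

open scoped Manifold ContDiff

namespace Pool.Agent.Results.MP_d483fb_an.AllLattices

open Pool.Agent.P.MP_d483fb_an.Z

theorem result (E : Type) [NormedAddCommGroup E] [NormedSpace ℝ E] [FiniteDimensional ℝ E]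
    [CompleteSpace E] (G : Type) [Group G] [TopologicalSpace G] [T2Space G] [ConnectedSpace G]
    [ChartedSpace E G] [LieGroup 𝓘(ℝ, E) (minSmoothness ℝ 3) G]
    (hs : LieAlgebra.IsSemisimple ℝ (GroupLieAlgebra 𝓘(ℝ, E) G))
    (hr : ∀ I : LieIdeal ℝ (GroupLieAlgebra 𝓘(ℝ, E) G), IsAtom I → 2 ≤ realRank I)
    (Γ : Subgroup G) (hΓ : IsLattice Γ)
    (m : ℕ) (M : Type) [TopologicalSpace M] [T2Space M] [CompactSpace M]
    [ChartedSpace (EuclideanSpace ℝ (Fin m)) M] [IsManifold (𝓡 m) ∞ M]
    (hm : (m : ℕ∞) < min (dNum (GroupLieAlgebra 𝓘(ℝ, E) G)) (vNum E G))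
    (α : Γ →* Equiv.Perm M) (hα : ∀ γ, ContMDiff (𝓡 m) (𝓡 m) ∞ (α γ)) :
    (Set.range α).Finite := by
  have := lie_isTopologicalGroup E G
  have := lie_locallyCompactSpace E G
  have := lie_secondCountable E G
  obtain ⟨D, hD⟩ := exists_higherRank E G hs hr
  exact main_higherRank D Γ hΓ m M ((hD m).1 (lt_min_iff.1 hm).2) ((hD m).2 (lt_min_iff.1 hm).1)
    α hα

end Pool.Agent.Results.MP_d483fb_an.AllLattices
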